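import Pool.Agent.V11277.Net

/-!
# Unique solutions of systems of equations `x_i = 1`, `x_i + x_j = x_k` are small

One inhomogeneous equation `x_c = 1` of the system is kept, in all the other ones the number `1` is
replaced by `x_c`. Among the homogeneous equations there are `n - 1` which together with `x_c = 1`
still have a unique solution, and Cramer's rule expresses it as a quotient of two determinants. One
row of these determinants is a unit vector and all the others are sums of two rows of the incidence
matrix of a directed graph, hence the determinants are at most `2 ^ (n - 1)` in absolute value, since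
the incidence matrices are totally unimodular.
-/

set_option autoImplicit false

namespace Pool.Agent.Results.MP_555c3f_al.UniqueSolutionSmall

open Pool.Agent.V11277.Net

/-- If the system of the equations `x_i = 1`, `i ∈ S₁`, and `x_i + x_j = x_k`, `(i, j, k) ∈ S₂`, has a
unique solution in complex numbers, then all the coordinates of the solution are rational numbers
with numerators and denominators of absolute value at most `2 ^ (n - 1)`. -/
theorem result (n : ℕ) (S₁ : Set (Fin n)) (S₂ : Set (Fin n × Fin n × Fin n)) (x : Fin n → ℂ)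
    (hx₁ : ∀ i ∈ S₁, x i = 1) (hx₂ : ∀ t ∈ S₂, x t.1 + x t.2.1 = x t.2.2)
    (huniq : ∀ y : Fin n → ℂ, (∀ i ∈ S₁, y i = 1) → (∀ t ∈ S₂, y t.1 + y t.2.1 = y t.2.2) → y = x)
    (i : Fin n) :
    ∃ r : ℚ, (r : ℂ) = x i ∧ |r.num| ≤ 2 ^ (n - 1) ∧ r.den ≤ 2 ^ (n - 1) := by
  refine unique_solution (Eqn.one '' S₁ ∪ (fun t => Eqn.add t.1 t.2.1 t.2.2) '' S₂) x ?_ ?_ i
  · rintro _ (⟨i, hi, rfl⟩ | ⟨t, ht, rfl⟩)
    · exact hx₁ i hi
    · exact hx₂ t ht
  · intro y hy
    refine huniq y (fun i hi => hy (Eqn.one i) (Or.inl ⟨i, hi, rfl⟩)) fun t ht => ?_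
    exact hy (Eqn.add t.1 t.2.1 t.2.2) (Or.inr ⟨t, ht, rfl⟩)

end Pool.Agent.Results.MP_555c3f_al.UniqueSolutionSmall
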